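import Mathlib

set_option autoImplicit false
set_option linter.unusedSectionVars false

namespace Pool.Agent.Galois60

open Equiv Finset

section generic

variable {α : Type} [Fintype α] [DecidableEq α]

/-- the 3-cycle a -> b -> c -> a -/
def tri (a b c : α) : Perm α := swap a b * swap b c

lemma tri_fst {a b c : α} (hab : a ≠ b) (hac : a ≠ c) : tri a b c a = b := by
  simp [tri, swap_apply_of_ne_of_ne hab hac]

lemma tri_snd {a b c : α} (hbc : b ≠ c) (hac : a ≠ c) : tri a b c b = c := by
  simp [tri, swap_apply_of_ne_of_ne hac.symm hbc.symm]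

lemma tri_trd {a b c : α} : tri a b c c = a := by
  simp [tri]

lemma tri_other {a b c x : α} (ha : x ≠ a) (hb : x ≠ b) (hc : x ≠ c) : tri a b c x = x := by
  simp [tri, swap_apply_of_ne_of_ne hb hc, swap_apply_of_ne_of_ne ha hb]

lemma conj_tri (g : Perm α) (a b c : α) : g * tri a b c * g⁻¹ = tri (g a) (g b) (g c) := by
  unfold tri
  rw [Equiv.swap_apply_apply, Equiv.swap_apply_apply]
  group

lemma tri_rot {a b c : α} (hab : a ≠ b) (hbc : b ≠ c) (hac : a ≠ c) : tri b c a = tri a b c := by
  ext x
  by_cases h1 : x = a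
  · subst h1; rw [tri_fst hab hac, tri_trd]
  by_cases h2 : x = b
  · subst h2; rw [tri_fst hbc hab.symm, tri_snd hbc hac]
  by_cases h3 : x = c
  · subst h3; rw [tri_snd hac.symm hab.symm, tri_trd]
  rw [tri_other h1 h2 h3, tri_other h2 h3 h1]

lemma tri_inv {a b c : α} (hab : a ≠ b) (hbc : b ≠ c) (hac : a ≠ c) : (tri a b c)⁻¹ = tri a c b := by
  rw [inv_eq_iff_mul_eq_one]
  ext x
  rw [Perm.mul_apply, Perm.one_apply]
  by_cases h1 : x = a
  · subst h1; rw [tri_fst hac hab, tri_trd]
  by_cases h2 : x = b
  · subst h2; rw [tri_trd, tri_fst hab hac]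
  by_cases h3 : x = c
  · subst h3; rw [tri_snd hbc.symm hab, tri_snd hbc hac]
  rw [tri_other h1 h3 h2, tri_other h1 h2 h3]

lemma tri_pow_three {a b c : α} (hab : a ≠ b) (hbc : b ≠ c) (hac : a ≠ c) : (tri a b c) ^ 3 = 1 := by
  have h : tri a b c * tri a b c = (tri a b c)⁻¹ := by
    rw [tri_inv hab hbc hac]
    ext x
    rw [Perm.mul_apply]
    by_cases h1 : x = a
    · subst h1; rw [tri_fst hab hac, tri_snd hbc hac, tri_fst hac hab]
    by_cases h2 : x = b
    · subst h2; rw [tri_snd hbc hac, tri_trd, tri_trd]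
    by_cases h3 : x = c
    · subst h3; rw [tri_trd, tri_fst hab hac, tri_snd hbc.symm hab]
    rw [tri_other h1 h2 h3, tri_other h1 h2 h3, tri_other h1 h3 h2]
  rw [pow_succ, pow_two, h, inv_mul_cancel]

/-- `H` and `G` have the same orbit on the colouring `c`. -/
def Good {β : Type} (G H : Subgroup (Perm α)) (c : α → β) : Prop :=
  ∀ h ∈ H, ∃ g ∈ G, c ∘ h = c ∘ g

/-- collapse `q i` to `p i` -/
noncomputable def col {ι : Type} (p q : ι → α) : α → α := Function.extend q p id

section matching
variable {ι : Type} {p q : ι → α}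

lemma col_p (h : Function.Injective (Sum.elim p q)) (i : ι) : col p q (p i) = p i := by
  unfold col
  rw [Function.extend_apply']
  · rfl
  · rintro ⟨j, hj⟩
    have := @h (Sum.inr j) (Sum.inl i) (by simpa using hj)
    simp at this

lemma col_q (h : Function.Injective (Sum.elim p q)) (i : ι) : col p q (q i) = p i := by
  unfold col
  rw [Function.Injective.extend_apply]
  intro a b hab
  have := @h (Sum.inr a) (Sum.inr b) (by simpa using hab)
  simpa using this

lemma col_other {x : α} (hx : ∀ i, x ≠ q i) : col p q x = x := by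
  unfold col
  rw [Function.extend_apply']
  · rfl
  · rintro ⟨j, hj⟩
    exact hx j hj.symm

lemma col_eq_iff (h : Function.Injective (Sum.elim p q)) {x y : α} :
    col p q x = col p q y ↔ x = y ∨ ∃ i, (x = p i ∧ y = q i) ∨ (x = q i ∧ y = p i) := by
  have hp : ∀ i j, p i = p j → i = j := by
    intro i j hij
    have := @h (Sum.inl i) (Sum.inl j) (by simpa using hij)
    simpa using this
  have hpq : ∀ i j, p i ≠ q j := by
    intro i j hij
    have := @h (Sum.inl i) (Sum.inr j) (by simpa using hij)
    simp at this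
  constructor
  · intro hxy
    by_cases hx : ∃ i, x = q i
    · obtain ⟨i, rfl⟩ := hx
      rw [col_q h] at hxy
      by_cases hy : ∃ j, y = q j
      · obtain ⟨j, rfl⟩ := hy
        rw [col_q h] at hxy
        left; rw [hp i j hxy]
      · push Not at hy
        rw [col_other hy] at hxy
        right; exact ⟨i, Or.inr ⟨rfl, hxy.symm⟩⟩
    · push Not at hx
      rw [col_other hx] at hxy
      by_cases hy : ∃ j, y = q j
      · obtain ⟨j, rfl⟩ := hy
        rw [col_q h] at hxy
        right; exact ⟨j, Or.inl ⟨hxy, rfl⟩⟩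
      · push Not at hy
        rw [col_other hy] at hxy
        left; exact hxy
  · rintro (rfl | ⟨i, ⟨rfl, rfl⟩ | ⟨rfl, rfl⟩⟩)
    · rfl
    · rw [col_p h, col_q h]
    · rw [col_p h, col_q h]

lemma card_image_col [Fintype ι] (h : Function.Injective (Sum.elim p q)) :
    (univ.image (col p q)).card ≤ Fintype.card α - Fintype.card ι := by
  have hq : Function.Injective q := by
    intro a b hab
    have := @h (Sum.inr a) (Sum.inr b) (by simpa using hab)
    simpa using this
  have hsub : univ.image (col p q) ⊆ (univ.image q)ᶜ := by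
    intro x hx
    rw [mem_image] at hx
    obtain ⟨y, -, rfl⟩ := hx
    rw [mem_compl, mem_image]
    rintro ⟨j, -, hj⟩
    by_cases hy : ∃ i, y = q i
    · obtain ⟨i, rfl⟩ := hy
      rw [col_q h] at hj
      have := @h (Sum.inl i) (Sum.inr j) (by simpa using hj.symm)
      simp at this
    · push Not at hy
      rw [col_other hy] at hj
      exact hy j hj.symm
  calc (univ.image (col p q)).card ≤ ((univ.image q)ᶜ).card := card_le_card hsub
    _ = Fintype.card α - Fintype.card ι := by
      rw [card_compl, card_image_of_injective _ hq, card_univ]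

/-- elements stabilising a matching colouring are involutions -/
lemma stab_sq (h : Function.Injective (Sum.elim p q)) {y : Perm α} (hy : col p q ∘ y = col p q) (x : α) :
    y (y x) = x := by
  have hpq : ∀ i j, p i ≠ q j := by
    intro i j hij
    have := @h (Sum.inl i) (Sum.inr j) (by simpa using hij)
    simp at this
  have hp : ∀ i j, p i = p j → i = j := by
    intro i j hij
    have := @h (Sum.inl i) (Sum.inl j) (by simpa using hij)
    simpa using this
  have hq : ∀ i j, q i = q j → i = j := by
    intro i j hij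
    have := @h (Sum.inr i) (Sum.inr j) (by simpa using hij)
    simpa using this
  have key : ∀ z, y z = z ∨ ∃ i, (y z = p i ∧ z = q i) ∨ (y z = q i ∧ z = p i) := fun z =>
    (col_eq_iff h).1 (congrFun hy z)
  rcases key x with hx | ⟨i, ⟨h1, h2⟩ | ⟨h1, h2⟩⟩
  · rw [hx, hx]
  · rcases key (y x) with h3 | ⟨j, ⟨h3, h4⟩ | ⟨h3, h4⟩⟩
    · exact absurd (y.injective h3) (by rw [h1, h2]; exact hpq i i)
    · rw [h1] at h4; exact absurd h4 (hpq i j)
    · rw [h1] at h4; rw [h3, h2, hp i j h4]
  · rcases key (y x) with h3 | ⟨j, ⟨h3, h4⟩ | ⟨h3, h4⟩⟩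
    · exact absurd (y.injective h3) (by rw [h1, h2]; exact (hpq i i).symm)
    · rw [h1] at h4; rw [h3, h2, hq i j h4]
    · rw [h1] at h4; exact absurd h4.symm (hpq j i)

end matching

/-- existence of a matching inside a finset -/
lemma exists_matching (X : Finset α) (m : ℕ) (hm : 2 * m ≤ X.card) :
    ∃ p q : Fin m → α, Function.Injective (Sum.elim p q) ∧ (∀ i, p i ∈ X) ∧ (∀ i, q i ∈ X) := by
  have : Fintype.card (Fin m ⊕ Fin m) ≤ Fintype.card X := by
    simp; omega
  obtain ⟨e⟩ := Function.Embedding.nonempty_of_card_le this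
  refine ⟨fun i => (e (Sum.inl i)).1, fun i => (e (Sum.inr i)).1, ?_, fun i => (e _).2, fun i => (e _).2⟩
  have : Sum.elim (fun i => (e (Sum.inl i)).1) (fun i => (e (Sum.inr i)).1) = fun s => (e s).1 := by
    ext s; cases s <;> rfl
  rw [this]
  exact Subtype.val_injective.comp e.injective

end generic

end Pool.Agent.Galois60
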