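import Pool.Agent.Galois60.Basic

set_option autoImplicit false
set_option linter.unusedSectionVars false

namespace Pool.Agent.Galois60

open Equiv Finset

variable {α : Type} [Fintype α] [DecidableEq α]

lemma app_inv {β : Type*} (e : Perm β) (x : β) : e (e⁻¹ x) = x := e.apply_symm_apply x

lemma inv_app {β : Type*} (e : Perm β) (x : β) : e⁻¹ (e x) = x := e.symm_apply_apply x

/-- the subgroup of `H` stabilising a colouring `c` -/
def stabIn {β : Type} (H : Subgroup (Perm α)) (c : α → β) : Subgroup H where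
  carrier := {y | c ∘ (y : Perm α) = c}
  one_mem' := by
    ext x; simp
  mul_mem' := by
    intro a b ha hb
    simp only [Set.mem_ofPred_eq] at ha hb ⊢
    ext x
    have h1 := congrFun ha ((b : Perm α) x)
    have h2 := congrFun hb x
    simp only [Function.comp_apply] at h1 h2
    simp only [Subgroup.coe_mul, Function.comp_apply, Perm.mul_apply]
    rw [h1, h2]
  inv_mem' := by
    intro a ha
    simp only [Set.mem_ofPred_eq] at ha ⊢
    ext x
    have h1 := congrFun ha ((a : Perm α)⁻¹ x)
    simp only [Function.comp_apply, app_inv] at h1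
    simp only [InvMemClass.coe_inv, Function.comp_apply]
    exact h1.symm

lemma mem_stabIn {β : Type} {H : Subgroup (Perm α)} {c : α → β} {y : H} :
    y ∈ stabIn H c ↔ c ∘ (y : Perm α) = c := Iff.rfl

lemma good_decomp {β : Type} {G H : Subgroup (Perm α)} (hGH : G ≤ H) {c : α → β} (hc : Good G H c)
    {h : Perm α} (hh : h ∈ H) : ∃ y ∈ H, ∃ g ∈ G, c ∘ y = c ∧ h = y * g := by
  obtain ⟨g, hg, hcg⟩ := hc h hh
  refine ⟨h * g⁻¹, H.mul_mem hh (H.inv_mem (hGH hg)), g, hg, ?_, by group⟩
  ext x
  have := congrFun hcg (g⁻¹ x)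
  simpa using this

/-- orbit of the base coset under the stabiliser is everything -/
lemma good_transitive {β : Type} {G H : Subgroup (Perm α)} (hGH : G ≤ H) {c : α → β} (hc : Good G H c)
    (ω : H ⧸ G.subgroupOf H) : ∃ v : stabIn H c, ω = v • ((1 : H) : H ⧸ G.subgroupOf H) := by
  induction ω using QuotientGroup.induction_on with
  | H h =>
    obtain ⟨y, hy, g, hg, hcy, hyg⟩ := good_decomp hGH hc h.2
    refine ⟨⟨⟨y, hy⟩, hcy⟩, ?_⟩
    have : (⟨⟨y, hy⟩, hcy⟩ : stabIn H c) • ((1 : H) : H ⧸ G.subgroupOf H)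
        = (((⟨y, hy⟩ : H) * 1 : H) : H ⧸ G.subgroupOf H) := rfl
    rw [this, QuotientGroup.eq, Subgroup.mem_subgroupOf]
    simp only [mul_one, Subgroup.coe_mul, InvMemClass.coe_inv]
    rw [hyg]
    simpa using G.inv_mem hg

lemma card_dvd {β : Type} {G H : Subgroup (Perm α)} (hGH : G ≤ H) {c : α → β} (hc : Good G H c) :
    Nat.card (H ⧸ G.subgroupOf H) ∣ Nat.card (stabIn H c) := by
  have e := MulAction.orbitEquivQuotientStabilizer (stabIn H c) ((1 : H) : H ⧸ G.subgroupOf H)
  have h1 : MulAction.orbit (stabIn H c) ((1 : H) : H ⧸ G.subgroupOf H) = Set.univ := by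
    ext ω
    simp only [Set.mem_univ, iff_true]
    obtain ⟨v, hv⟩ := good_transitive hGH hc ω
    exact ⟨v, hv.symm⟩
  have h2 : Nat.card (H ⧸ G.subgroupOf H) =
      Nat.card (MulAction.orbit (stabIn H c) ((1 : H) : H ⧸ G.subgroupOf H)) := by
    rw [h1]; exact (Nat.card_congr (Equiv.Set.univ _)).symm
  rw [h2, Nat.card_congr e]
  exact Subgroup.card_quotient_dvd_card _

/-- the index is a power of two as soon as one matching is good -/
lemma not_three_dvd {ι : Type} {G H : Subgroup (Perm α)} (hGH : G ≤ H) {p q : ι → α}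
    (hpq : Function.Injective (Sum.elim p q)) (hc : Good G H (col p q)) :
    ¬ 3 ∣ Nat.card (H ⧸ G.subgroupOf H) := by
  have h2 : IsPGroup 2 (stabIn H (col p q)) := by
    intro v
    refine ⟨1, ?_⟩
    rw [pow_one, pow_two]
    ext x
    have := stab_sq hpq v.2 x
    simpa using this
  have : Fact (Nat.Prime 2) := ⟨Nat.prime_two⟩
  obtain ⟨m, hm⟩ := (IsPGroup.iff_card (p := 2) (G := stabIn H (col p q))).1 h2
  intro h3
  have h4 : 3 ∣ 2 ^ m := by
    rw [← hm]; exact h3.trans (card_dvd hGH hc)
  have := (Nat.Prime.dvd_of_dvd_pow Nat.prime_three h4)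
  omega

/-- three-cycles of `H` lie in `G` -/
lemma tri_mem {G H : Subgroup (Perm α)} (hGH : G ≤ H) {d : ℕ} (hd : 1 ≤ d) (hn : 2 * d < Fintype.card α)
    (hgood : ∀ c : α → α, (univ.image c).card ≤ Fintype.card α - d → Good G H c)
    {a b c : α} (hab : a ≠ b) (hbc : b ≠ c) (hac : a ≠ c) (ht : tri a b c ∈ H) : tri a b c ∈ G := by
  -- index not divisible by three
  have h3 : ¬ 3 ∣ Nat.card (H ⧸ G.subgroupOf H) := by
    obtain ⟨p, q, hpq, -, -⟩ := exists_matching (univ : Finset α) d (by rw [card_univ]; omega)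
    refine not_three_dvd hGH hpq (hgood _ ?_)
    have := card_image_col hpq
    simpa using this
  -- the colouring
  have hcard3 : ({a, b, c} : Finset α).card = 3 := by
    rw [card_insert_of_notMem, card_insert_of_notMem, card_singleton]
    · simpa using hbc
    · simp [hab, hac]
  obtain ⟨p, q, hpq, hpX, hqX⟩ := exists_matching (({a, b, c} : Finset α)ᶜ) (d - 2) (by
    rw [card_compl, hcard3]; omega)
  have hpX' : ∀ i, p i ≠ a ∧ p i ≠ b ∧ p i ≠ c := by
    intro i; have := hpX i; simpa using this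
  have hqX' : ∀ i, q i ≠ a ∧ q i ≠ b ∧ q i ≠ c := by
    intro i; have := hqX i; simpa using this
  set col1 : α → α := fun x => if x = b ∨ x = c then a else col p q x with hcol1
  have hcola : col p q a = a := col_other (fun i h => (hqX' i).1 h.symm)
  have hcolne : ∀ x, x ≠ a → col p q x ≠ a := by
    intro x hx hxa
    by_cases h : ∃ i, x = q i
    · obtain ⟨i, rfl⟩ := h
      rw [col_q hpq] at hxa
      exact (hpX' i).1 hxa
    · push Not at h
      rw [col_other h] at hxa
      exact hx hxa
  have hc1 : ∀ x, col1 x = a ↔ x = a ∨ x = b ∨ x = c := by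
    intro x
    simp only [hcol1]
    split_ifs with h
    · simp only [true_iff]; right; exact h
    · constructor
      · intro hx
        left
        by_contra hxa
        exact hcolne x hxa hx
      · rintro (rfl | h')
        · exact hcola
        · exact absurd h' h
  have hq : Function.Injective q := by
    intro i j hij
    have := @hpq (Sum.inr i) (Sum.inr j) (by simpa using hij)
    simpa using this
  have hgood1 : Good G H col1 := by
    apply hgood
    have hsub : univ.image col1 ⊆ ((univ.image q) ∪ {b, c})ᶜ := by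
      intro y hy
      rw [mem_image] at hy
      obtain ⟨x, -, rfl⟩ := hy
      rw [mem_compl, mem_union, mem_image, not_or]
      simp only [hcol1]
      split_ifs with h
      · refine ⟨?_, ?_⟩
        · rintro ⟨i, -, hi⟩
          exact (hqX' i).1 hi
        · simp [hab, hac]
      · push Not at h
        by_cases hx : ∃ i, x = q i
        · obtain ⟨i, rfl⟩ := hx
          rw [col_q hpq]
          refine ⟨?_, ?_⟩
          · rintro ⟨j, -, hj⟩
            have := @hpq (Sum.inr j) (Sum.inl i) (by simpa using hj)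
            simp at this
          · simp [(hpX' i).2.1, (hpX' i).2.2]
        · push Not at hx
          rw [col_other hx]
          refine ⟨?_, ?_⟩
          · rintro ⟨j, -, hj⟩
            exact hx j hj.symm
          · simp [h.1, h.2]
    refine (card_le_card hsub).trans ?_
    rw [card_compl]
    have hdisj : Disjoint (univ.image q) {b, c} := by
      rw [disjoint_left]
      intro x hx
      rw [mem_image] at hx
      obtain ⟨i, -, rfl⟩ := hx
      simp [(hqX' i).2.1, (hqX' i).2.2]
    rw [card_union_of_disjoint hdisj, card_image_of_injective _ hq, card_univ, card_pair hbc,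
      Fintype.card_fin]
    omega
  -- fixed coset
  have ht3 := tri_pow_three hab hbc hac
  have : Fact (Nat.Prime 3) := ⟨Nat.prime_three⟩
  have hP : IsPGroup 3 (Subgroup.zpowers (⟨tri a b c, ht⟩ : H)) := by
    intro v
    refine ⟨1, ?_⟩
    obtain ⟨⟨v, hv'⟩, k, hk⟩ := v
    simp only at hk
    ext1
    simp only [pow_one, Subgroup.coe_pow, Subgroup.coe_one]
    rw [← hk]
    rw [← zpow_natCast, ← zpow_mul, mul_comm, zpow_mul]
    have : (⟨tri a b c, ht⟩ : H) ^ ((3 : ℕ) : ℤ) = 1 := by
      rw [zpow_natCast]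
      ext1
      simpa using ht3
    rw [this, one_zpow]
  obtain ⟨ω, hω⟩ := hP.nonempty_fixed_point_of_prime_not_dvd_card (H ⧸ G.subgroupOf H) h3
  have hfix : (⟨tri a b c, ht⟩ : H) • ω = ω := by
    have := hω ⟨⟨tri a b c, ht⟩, Subgroup.mem_zpowers _⟩
    exact this
  obtain ⟨⟨v, hv⟩, hvω⟩ := good_transitive hGH hgood1 ω
  have hv1 : ω = ((v : H) : H ⧸ G.subgroupOf H) := by
    rw [hvω]
    have : (⟨v, hv⟩ : stabIn H col1) • ((1 : H) : H ⧸ G.subgroupOf H)
        = ((v * 1 : H) : H ⧸ G.subgroupOf H) := rfl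
    rw [this, mul_one]
  rw [hv1] at hfix
  have h4 : (⟨tri a b c, ht⟩ : H) • ((v : H) : H ⧸ G.subgroupOf H)
      = (((⟨tri a b c, ht⟩ : H) * v : H) : H ⧸ G.subgroupOf H) := rfl
  rw [h4, eq_comm, QuotientGroup.eq, Subgroup.mem_subgroupOf] at hfix
  simp only [Subgroup.coe_mul, InvMemClass.coe_inv] at hfix
  have h5 : (v : Perm α)⁻¹ * (tri a b c * v) = tri ((v : Perm α)⁻¹ a) ((v : Perm α)⁻¹ b) ((v : Perm α)⁻¹ c) := by
    rw [← conj_tri]; group
  rw [h5] at hfix
  -- v permutes {a,b,c}
  have hvs : ∀ x, ((v : Perm α)⁻¹ x = a ∨ (v : Perm α)⁻¹ x = b ∨ (v : Perm α)⁻¹ x = c) ↔ (x = a ∨ x = b ∨ x = c) := by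
    intro x
    rw [← hc1, ← hc1]
    have := congrFun (mem_stabIn.1 hv) ((v : Perm α)⁻¹ x)
    simp only [Function.comp_apply, app_inv] at this
    rw [this]
  have ha := (hvs a).2 (Or.inl rfl)
  have hb := (hvs b).2 (Or.inr (Or.inl rfl))
  have hc := (hvs c).2 (Or.inr (Or.inr rfl))
  have hinj := ((v : Perm α)⁻¹).injective
  have hab' : (v : Perm α)⁻¹ a ≠ (v : Perm α)⁻¹ b := fun h => hab (hinj h)
  have hbc' : (v : Perm α)⁻¹ b ≠ (v : Perm α)⁻¹ c := fun h => hbc (hinj h)
  have hac' : (v : Perm α)⁻¹ a ≠ (v : Perm α)⁻¹ c := fun h => hac (hinj h)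
  have key : tri a b c ∈ G ∨ tri a c b ∈ G := by
    rcases ha with ha | ha | ha <;> rcases hb with hb | hb | hb <;> rcases hc with hc | hc | hc <;>
      rw [ha, hb, hc] at hfix <;> rw [ha] at hab' hac' <;> rw [hb] at hab' hbc' <;>
      rw [hc] at hbc' hac' <;>
      first
        | exact absurd rfl hab'
        | exact absurd rfl hbc'
        | exact absurd rfl hac'
        | exact Or.inl hfix
        | exact Or.inr hfix
        | (left; rw [← tri_rot hab hbc hac]; exact hfix)
        | (left; rw [← tri_rot hab hbc hac, ← tri_rot hbc hac.symm hab.symm]; exact hfix)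
        | (right; rw [← tri_rot hac hbc.symm hab]; exact hfix)
        | (right; rw [← tri_rot hac hbc.symm hab, ← tri_rot hbc.symm hab.symm hac.symm]; exact hfix)
  rcases key with h | h
  · exact h
  · rw [← inv_inv (tri a b c), tri_inv hab hbc hac]
    exact G.inv_mem h

end Pool.Agent.Galois60
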