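import Pool.Agent.Galois60.Struct

set_option autoImplicit false
set_option linter.unusedSectionVars false

namespace Pool.Agent.Galois60

open Equiv Finset

variable {α : Type} [Fintype α] [DecidableEq α]

theorem structure_thm {G H : Subgroup (Perm α)} (hGH : G ≤ H) (hne : ¬ H ≤ G) {d : ℕ} (hd : 1 ≤ d)
    (hn : 2 * d < Fintype.card α)
    (hgood : ∀ c : α → α, (univ.image c).card ≤ Fintype.card α - d → Good G H c) :
    ∃ B : Finset α, Bᶜ.card < d ∧ (∀ h ∈ H, ∀ b ∈ B, h b ∈ B) ∧
      (∀ a ∈ B, ∀ b ∈ B, ∀ c ∈ B, a ≠ b → b ≠ c → a ≠ c → tri a b c ∈ G) := by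
  classical
  let P : ℕ → Prop := fun r => ∀ p q : Fin r → α, Function.Injective (Sum.elim p q) → Good G H (col p q)
  have hPd : P d := by
    intro p q hpq
    apply hgood
    simpa using card_image_col hpq
  have hP0 : ¬ P 0 := by
    intro h0
    have h1 := h0 Fin.elim0 Fin.elim0 (by intro x; rcases x with x | x <;> exact x.elim0)
    apply hne
    intro h hh
    obtain ⟨g, hg, hcg⟩ := h1 h hh
    have : h = g := by
      ext x
      have := congrFun hcg x
      simp only [Function.comp_apply] at this
      rw [col_other (fun i => i.elim0), col_other (fun i => i.elim0)] at this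
      exact this
    rw [this]; exact hg
  have hex : ∃ r, P r := ⟨d, hPd⟩
  have hPr : P (Nat.find hex) := Nat.find_spec hex
  have hrd : Nat.find hex ≤ d := Nat.find_min' hex hPd
  obtain ⟨s, hs⟩ : ∃ s, Nat.find hex = s + 1 := by
    rcases Nat.eq_zero_or_eq_succ_pred (Nat.find hex) with h | h
    · rw [h] at hPr; exact absurd hPr hP0
    · exact ⟨_, h⟩
  have hPs : ¬ P s := Nat.find_min hex (by rw [hs]; exact Nat.lt_succ_self s)
  rw [hs] at hPr hrd
  obtain ⟨p, q, hpq, hbad⟩ : ∃ p q : Fin s → α, Function.Injective (Sum.elim p q) ∧ ¬ Good G H (col p q) := by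
    by_contra hcon
    push Not at hcon
    exact hPs hcon
  have hpqn : ∀ i j, p i ≠ q j := by
    intro i j hij
    have := @hpq (Sum.inl i) (Sum.inr j) (by simpa using hij)
    simp at this
  have hp : ∀ i j, p i = p j → i = j := by
    intro i j hij
    have := @hpq (Sum.inl i) (Sum.inl j) (by simpa using hij)
    simpa using this
  have hq : ∀ i j, q i = q j → i = j := by
    intro i j hij
    have := @hpq (Sum.inr i) (Sum.inr j) (by simpa using hij)
    simpa using this
  set X0 : Finset α := (univ.image p ∪ univ.image q)ᶜ with hX0
  have hX0mem : ∀ x, x ∈ X0 ↔ ∀ i, x ≠ p i ∧ x ≠ q i := by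
    intro x
    simp only [hX0, mem_compl, mem_union, mem_image, mem_univ, true_and, not_or, not_exists]
    constructor
    · rintro ⟨h1, h2⟩ i; exact ⟨fun h => h1 i h.symm, fun h => h2 i h.symm⟩
    · intro h; exact ⟨fun i hi => (h i).1 hi.symm, fun i hi => (h i).2 hi.symm⟩
  have hX0card : 3 ≤ X0.card := by
    rw [hX0, card_compl]
    have h1 : (univ.image p ∪ univ.image q).card ≤ s + s := by
      refine (card_union_le _ _).trans ?_
      refine Nat.add_le_add ?_ ?_
      · exact card_image_le.trans (by simp)
      · exact card_image_le.trans (by simp)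
    omega
  have htri : ∀ a ∈ X0, ∀ b ∈ X0, ∀ c ∈ X0, a ≠ b → b ≠ c → a ≠ c → tri a b c ∈ H := by
    intro a ha b hb c hc hab hbc hac
    exact tri_of_bad hGH hPr (by simp) hpq hbad hab hbc hac ((hX0mem a).1 ha) ((hX0mem b).1 hb)
      ((hX0mem c).1 hc)
  obtain ⟨a0, ha0⟩ : X0.Nonempty := by rw [← card_pos]; omega
  set B : Finset α := univ.filter (fun x => R H a0 x) with hB
  have hBmem : ∀ x, x ∈ B ↔ R H a0 x := by intro x; simp [hB]
  have hX0B : X0 ⊆ B := by
    intro b hb
    rw [hBmem]
    by_cases hab : a0 = b
    · exact Or.inl hab
    · obtain ⟨c, hc, hca, hcb⟩ : ∃ c ∈ X0, c ≠ a0 ∧ c ≠ b := by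
        by_contra hcon
        push Not at hcon
        have : X0 ⊆ {a0, b} := by
          intro c hc
          by_cases h : c = a0
          · simp [h]
          · simp [hcon c hc h]
        have := card_le_card this
        have h2 : ({a0, b} : Finset α).card ≤ 2 := card_le_two
        omega
      exact Or.inr ⟨hab, c, hcb.symm, hca.symm, htri a0 ha0 b hb c hc hab hcb.symm hca.symm⟩
  have hBcard : 3 ≤ B.card := hX0card.trans (card_le_card hX0B)
  have ha0B : a0 ∈ B := hX0B ha0
  have hBinv : ∀ h ∈ H, ∀ b ∈ B, ∀ b' ∈ B, h b ∈ B → h b' ∈ B := by
    intro h hh b hb b' hb' hhb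
    rw [hBmem] at *
    exact hhb.trans (R.map hh (hb.symm.trans hb'))
  have hDlt : Bᶜ.card < s + 1 := by
    by_contra hD
    push Not at hD
    by_cases hBs : s + 1 < B.card
    · -- case A
      have hD' : Fintype.card (Fin (s + 1)) ≤ Fintype.card (Bᶜ : Finset α) := by
        rw [Fintype.card_fin, Fintype.card_coe]; exact hD
      have hB' : Fintype.card (Fin (s + 1)) ≤ Fintype.card B := by
        rw [Fintype.card_fin, Fintype.card_coe]; omega
      obtain ⟨f⟩ := Function.Embedding.nonempty_of_card_le hD'
      obtain ⟨e⟩ := Function.Embedding.nonempty_of_card_le hB'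
      let p' : Fin (s + 1) → α := fun i => (e i).1
      let q' : Fin (s + 1) → α := fun i => (f i).1
      have hp'B : ∀ i, p' i ∈ B := fun i => (e i).2
      have hq'B : ∀ i, q' i ∉ B := fun i => mem_compl.1 (f i).2
      have hpq' : Function.Injective (Sum.elim p' q') := by
        rintro (i | i) (j | j) hij <;> simp only [Sum.elim_inl, Sum.elim_inr] at hij
        · rw [e.injective (Subtype.ext hij)]
        · exact absurd (hij ▸ hp'B i) (hq'B j)
        · exact absurd (hij ▸ hp'B j) (hq'B i)
        · rw [f.injective (Subtype.ext hij)]
      have hg := hPr p' q' hpq'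
      obtain ⟨β, hβB, hβ⟩ : ∃ β ∈ B, ∀ i, β ≠ p' i := by
        by_contra hcon
        push Not at hcon
        have : B ⊆ univ.image p' := by
          intro β hβ
          obtain ⟨i, hi⟩ := hcon β hβ
          rw [mem_image]; exact ⟨i, mem_univ _, hi.symm⟩
        have h1 := card_le_card this
        have h2 : (univ.image p').card ≤ s + 1 := card_image_le.trans (by simp)
        omega
      have htriv : ∀ y ∈ H, col p' q' ∘ y = col p' q' → y = 1 := by
        intro y hy hcy
        have hyβ : y β = β := stab_other hpq' (fun i => ⟨hβ i, fun h => hq'B i (h ▸ hβB)⟩) (congrFun hcy β)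
        have hpair := stab_pair hpq' (y := y) (fun x _ => congrFun hcy x)
        have hpair' : ∀ i, y (p' i) = p' i ∧ y (q' i) = q' i := by
          intro i
          rcases hpair i with h | ⟨h1, h2⟩
          · exact h
          · exfalso
            have := hBinv y hy β hβB (p' i) (hp'B i) (by rw [hyβ]; exact hβB)
            rw [h1] at this
            exact hq'B i this
        ext x
        rw [Perm.one_apply]
        by_cases hx : ∃ i, x = p' i ∨ x = q' i
        · obtain ⟨i, rfl | rfl⟩ := hx
          · exact (hpair' i).1
          · exact (hpair' i).2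
        · push Not at hx
          exact stab_other hpq' hx (congrFun hcy x)
      apply hne
      intro h hh
      obtain ⟨y, hy, g, hg', hcy, hyg⟩ := good_decomp hGH hg hh
      rw [hyg, htriv y hy hcy, one_mul]
      exact hg'
    · -- case B
      push Not at hBs
      set b := B.card with hb
      set S : Finset (Fin s) := univ.filter (fun i => p i ∉ B ∧ q i ∉ B) with hS
      have hScard : s + 1 - b ≤ S.card := by
        have h1 : Sᶜ.card ≤ (B.erase a0).card := by
          refine card_le_card_of_injOn (fun i => if p i ∈ B then p i else q i) ?_ ?_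
          · intro i hi
            have hi' : ¬ (p i ∉ B ∧ q i ∉ B) := by
              have : i ∉ S := by simpa using hi
              simpa [hS] using this
            have hne0 := (hX0mem a0).1 ha0 i
            simp only [coe_erase, Set.mem_sdiff, mem_coe, Set.mem_singleton_iff]
            split_ifs with h
            · exact ⟨h, fun e => hne0.1 e.symm⟩
            · refine ⟨?_, fun e => hne0.2 e.symm⟩
              by_contra hq'
              exact hi' ⟨h, hq'⟩
          · intro i _ j _ hij
            simp only at hij
            split_ifs at hij with h1 h2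
            · exact hp i j hij
            · exact absurd hij (hpqn i j)
            · exact absurd hij.symm (hpqn j i)
            · exact hq i j hij
        rw [card_erase_of_mem ha0B, card_compl, Fintype.card_fin] at h1
        omega
      obtain ⟨S', hS'S, hS'card⟩ := exists_subset_card_eq hScard
      have hS'B : ∀ i ∈ S', p i ∉ B ∧ q i ∉ B := by
        intro i hi
        have := hS'S hi
        simpa [hS] using this
      set D' : Finset α := Bᶜ \ (S'.image p ∪ S'.image q) with hD'
      have hD'mem : ∀ x, x ∈ D' ↔ x ∉ B ∧ ∀ i ∈ S', x ≠ p i ∧ x ≠ q i := by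
        intro x
        simp only [hD', mem_sdiff, mem_compl, mem_union, mem_image, not_or, not_exists, not_and]
        constructor
        · rintro ⟨h1, h2, h3⟩
          exact ⟨h1, fun i hi => ⟨fun h => h2 i hi h.symm, fun h => h3 i hi h.symm⟩⟩
        · rintro ⟨h1, h2⟩
          exact ⟨h1, fun i hi h => (h2 i hi).1 h.symm, fun i hi h => (h2 i hi).2 h.symm⟩
      have hD'card : b + 1 ≤ D'.card := by
        have h1 : (S'.image p ∪ S'.image q).card ≤ (s + 1 - b) + (s + 1 - b) := by
          refine (card_union_le _ _).trans (Nat.add_le_add ?_ ?_)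
          · exact card_image_le.trans hS'card.le
          · exact card_image_le.trans hS'card.le
        have h2 := le_card_sdiff (S'.image p ∪ S'.image q) Bᶜ
        rw [card_compl] at h2
        have h3 : B.card ≤ Fintype.card α := card_le_univ B
        rw [hD']
        omega
      obtain ⟨e⟩ : Nonempty (Option B ↪ D') := by
        apply Function.Embedding.nonempty_of_card_le
        rw [Fintype.card_option, Fintype.card_coe, Fintype.card_coe]
        exact hD'card
      -- the claim
      have hclaim : ∃ f : B → α, Function.Injective f ∧ (∀ β, f β ∈ D') ∧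
          ¬ ∃ h ∈ H, ∀ β : B, h β = f β := by
        by_contra hcon
        push Not at hcon
        obtain ⟨β1, hβ1B, hβ10⟩ : ∃ β1 ∈ B, β1 ≠ a0 := by
          by_contra hcon2
          push Not at hcon2
          have : B ⊆ {a0} := by
            intro x hx; simp [hcon2 x hx]
          have := card_le_card this
          simp at this
          omega
        obtain ⟨h1, hh1, hh1'⟩ := hcon (fun β => (e (some β)).1)
          (fun x y hxy => by
            have := e.injective (Subtype.ext hxy)
            simpa using this) (fun β => (e _).2)
        obtain ⟨h2, hh2, hh2'⟩ := hcon (fun β => if (β : α) = a0 then (e none).1 else (e (some β)).1)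
          (fun x y hxy => by
            simp only at hxy
            split_ifs at hxy with hx hy hy
            · exact Subtype.ext (hx.trans hy.symm)
            · have := e.injective (Subtype.ext hxy)
              simp at this
            · have := e.injective (Subtype.ext hxy)
              simp at this
            · have := e.injective (Subtype.ext hxy)
              simpa using this)
          (fun β => by
            split_ifs
            · exact (e _).2
            · exact (e _).2)
        -- g = h2 * h1⁻¹
        have hg : h2 * h1⁻¹ ∈ H := H.mul_mem hh2 (H.inv_mem hh1)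
        have e1 : h1 β1 = (e (some ⟨β1, hβ1B⟩)).1 := hh1' ⟨β1, hβ1B⟩
        have e2 : h2 β1 = (e (some ⟨β1, hβ1B⟩)).1 := by
          have := hh2' ⟨β1, hβ1B⟩
          simpa [hβ10] using this
        have e3 : h2 a0 = (e none).1 := by
          have := hh2' ⟨a0, ha0B⟩
          simpa using this
        -- R (h2 a0) (h2 β1), and h2 β1 = h1 β1
        have hR1 : R H (e none).1 (h1 β1) := by
          rw [← e3, e1, ← e2]
          exact R.map hh2 ((hBmem β1).1 hβ1B)
        have hR2 : R H (h1⁻¹ (e none).1) β1 := by
          have := R.map (H.inv_mem hh1) hR1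
          rwa [inv_app] at this
        have hmemB : h1⁻¹ (e none).1 ∈ B := by
          rw [hBmem]
          exact ((hBmem β1).1 hβ1B).trans hR2.symm
        have e4 := hh1' ⟨_, hmemB⟩
        simp only [app_inv] at e4
        have := e.injective (Subtype.ext e4)
        simp at this
      obtain ⟨f, hfinj, hfD, hfno⟩ := hclaim
      have hfB : ∀ β, f β ∉ B := fun β => ((hD'mem _).1 (hfD β)).1
      have hfS : ∀ β, ∀ i ∈ S', f β ≠ p i ∧ f β ≠ q i := fun β => ((hD'mem _).1 (hfD β)).2
      let p' : S' ⊕ B → α := Sum.elim (fun i => p i) (fun β => β)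
      let q' : S' ⊕ B → α := Sum.elim (fun i => q i) f
      have hpq' : Function.Injective (Sum.elim p' q') := by
        rintro ((i | i) | (i | i)) ((j | j) | (j | j)) hij <;>
          simp only [Sum.elim_inl, Sum.elim_inr, p', q'] at hij
        · rw [Subtype.ext (hp i j hij)]
        · exact absurd (hij ▸ j.2) (hS'B i i.2).1
        · exact absurd hij (hpqn i j)
        · exact absurd hij.symm (hfS j i i.2).1
        · exact absurd (hij ▸ i.2) (hS'B j j.2).1
        · rw [Subtype.ext hij]
        · exact absurd (hij ▸ i.2) (hS'B j j.2).2
        · exact absurd (hij ▸ i.2) (hfB j)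
        · exact absurd hij.symm (hpqn j i)
        · exact absurd (hij ▸ j.2) (hS'B i i.2).2
        · rw [Subtype.ext (hq i j hij)]
        · exact absurd hij.symm (hfS j i i.2).2
        · exact absurd hij (hfS i j j.2).1
        · exact absurd (hij ▸ j.2) (hfB i)
        · exact absurd hij (hfS i j j.2).2
        · rw [hfinj hij]
      have hcardι : Fintype.card (S' ⊕ B) = s + 1 := by
        rw [Fintype.card_sum, Fintype.card_coe, Fintype.card_coe, hS'card]
        omega
      have hgood' : Good G H (col p' q') := good_of_card hPr hcardι p' q' hpq'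
      have hstab : ∀ y ∈ H, col p' q' ∘ y = col p' q' → col p q ∘ y = col p q := by
        intro y hy hcy
        have hpair := stab_pair hpq' (y := y) (fun x _ => congrFun hcy x)
        have hfix : ∀ β : B, y β = β ∧ y (f β) = f β := by
          by_contra hcon
          push Not at hcon
          obtain ⟨β, hβ⟩ := hcon
          have hβ' : y β = f β := by
            rcases hpair (Sum.inr β) with ⟨h1, h2⟩ | ⟨h1, h2⟩
            · exact absurd h2 (hβ h1)
            · exact h1
          apply hfno
          refine ⟨y, hy, ?_⟩
          intro β'
          rcases hpair (Sum.inr β') with ⟨h1, h2⟩ | ⟨h1, h2⟩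
          · exfalso
            have h1' : y (β' : α) = β' := h1
            have := hBinv y hy β' β'.2 β β.2 (by rw [h1']; exact β'.2)
            rw [hβ'] at this
            exact hfB β this
          · exact h1
        ext x
        simp only [Function.comp_apply]
        by_cases hx : ∃ j, x = p' j ∨ x = q' j
        · obtain ⟨(i | i), hi⟩ := hx
          · rcases hpair (Sum.inl i) with ⟨h1, h2⟩ | ⟨h1, h2⟩
            · rcases hi with rfl | rfl
              · rw [h1]
              · rw [h2]
            · rcases hi with rfl | rfl
              · rw [h1]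
                change col p q (q i) = col p q (p i)
                rw [col_p hpq, col_q hpq]
              · rw [h2]
                change col p q (p i) = col p q (q i)
                rw [col_p hpq, col_q hpq]
          · rcases hi with rfl | rfl
            · change col p q (y i) = col p q i
              rw [(hfix i).1]
            · change col p q (y (f i)) = col p q (f i)
              rw [(hfix i).2]
        · push Not at hx
          rw [stab_other hpq' hx (congrFun hcy x)]
      apply hbad
      intro h hh
      obtain ⟨y, hy, g, hg', hcy, hyg⟩ := good_decomp hGH hgood' hh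
      refine ⟨g, hg', ?_⟩
      have := hstab y hy hcy
      rw [hyg]
      ext x
      have h2 := congrFun this (g x)
      simpa using h2
  have hBlarge : Bᶜ.card < B.card := by
    rw [card_compl] at hDlt ⊢
    have h3 : B.card ≤ Fintype.card α := card_le_univ B
    omega
  refine ⟨B, by omega, ?_, ?_⟩
  · intro h hh b hb
    by_contra hcon
    have h1 : ∀ b' ∈ B, h b' ∈ Bᶜ := by
      intro b' hb'
      rw [mem_compl]
      intro h2
      exact hcon (hBinv h hh b' hb' b hb h2)
    have h2 : B.card ≤ Bᶜ.card := card_le_card_of_injOn h h1 (h.injective.injOn)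
    omega
  · intro a ha b hb c hc hab hbc hac
    apply tri_mem hGH hd hn hgood hab hbc hac
    rw [hBmem] at ha hb hc
    exact R.tri_mem hab hbc hac (ha.symm.trans hb) (ha.symm.trans hc)

end Pool.Agent.Galois60
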