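import Pool.Agent.Galois60.Cosets

set_option autoImplicit false
set_option linter.unusedSectionVars false

namespace Pool.Agent.Galois60

open Equiv Finset

variable {α : Type} [Fintype α] [DecidableEq α]

/-- two points are related if equal or both moved by a three-cycle of `H` -/
def R (H : Subgroup (Perm α)) (x y : α) : Prop :=
  x = y ∨ (x ≠ y ∧ ∃ z, y ≠ z ∧ x ≠ z ∧ tri x y z ∈ H)

lemma R.refl (H : Subgroup (Perm α)) (x : α) : R H x x := Or.inl rfl

lemma R.symm {H : Subgroup (Perm α)} {x y : α} (h : R H x y) : R H y x := by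
  rcases h with rfl | ⟨hxy, z, hyz, hxz, ht⟩
  · exact Or.inl rfl
  · refine Or.inr ⟨hxy.symm, z, hxz, hyz, ?_⟩
    have h1 := H.inv_mem ht
    rw [tri_inv hxy hyz hxz] at h1
    -- tri x z y = tri y x z
    rwa [tri_rot hxy.symm hxz hyz] at h1

lemma R.trans {H : Subgroup (Perm α)} {x y w : α} (h1 : R H x y) (h2 : R H y w) : R H x w := by
  by_cases hxw : x = w
  · exact Or.inl hxw
  rcases h1 with rfl | ⟨hxy, u, hyu, hxu, hA⟩
  · exact h2
  rcases h2 with rfl | ⟨hyw, v, hwv, hyv, hC⟩
  · exact Or.inr ⟨hxy, u, hyu, hxu, hA⟩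
  by_cases huw : u = w
  · subst huw
    refine Or.inr ⟨hxw, y, hyw.symm, hxy, ?_⟩
    have := H.inv_mem hA
    rwa [tri_inv hxy hyw hxw] at this
  · -- conjugate
    have h3 : (tri x y u)⁻¹ * tri y w v * (tri x y u)⁻¹⁻¹ ∈ H :=
      H.mul_mem (H.mul_mem (H.inv_mem hA) hC) (H.inv_mem (H.inv_mem hA))
    rw [conj_tri, tri_inv hxy hyu hxu] at h3
    have e1 : tri x u y y = x := tri_trd
    have e2 : tri x u y w = w := tri_other (Ne.symm hxw) (Ne.symm huw) (Ne.symm hyw)
    rw [e1, e2] at h3
    refine Or.inr ⟨hxw, tri x u y v, ?_, ?_, h3⟩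
    · intro h
      exact hwv ((tri x u y).injective (e2.trans h))
    · intro h
      exact hyv ((tri x u y).injective (e1.trans h))

lemma R.map {H : Subgroup (Perm α)} {x y : α} {h : Perm α} (hh : h ∈ H) (hxy : R H x y) :
    R H (h x) (h y) := by
  rcases hxy with rfl | ⟨hxy, z, hyz, hxz, ht⟩
  · exact Or.inl rfl
  · refine Or.inr ⟨fun e => hxy (h.injective e), h z, fun e => hyz (h.injective e),
      fun e => hxz (h.injective e), ?_⟩
    rw [← conj_tri]
    exact H.mul_mem (H.mul_mem hh ht) (H.inv_mem hh)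

lemma R.map_iff {H : Subgroup (Perm α)} {x y : α} {h : Perm α} (hh : h ∈ H) :
    R H (h x) (h y) ↔ R H x y := by
  constructor
  · intro hr
    have := R.map (H.inv_mem hh) hr
    rwa [inv_app, inv_app] at this
  · exact R.map hh

lemma R.tri_mem {H : Subgroup (Perm α)} {a b c : α} (hab : a ≠ b) (hbc : b ≠ c) (hac : a ≠ c)
    (h1 : R H a b) (h2 : R H a c) : tri a b c ∈ H := by
  rcases h1 with h | ⟨-, u, hbu, hau, hA⟩
  · exact absurd h hab
  by_cases huc : u = c
  · subst huc; exact hA
  have h3 : R H a u := by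
    refine Or.inr ⟨hau, b, hbu.symm, hab, ?_⟩
    have := H.inv_mem hA
    rwa [tri_inv hab hbu hau] at this
  have h4 : R H u c := h3.symm.trans h2
  rcases h4 with h | ⟨-, w, hcw, huw, hE⟩
  · exact absurd h huc
  by_cases hwa : w = a
  · subst hwa
    have : tri u c w * tri w b u = tri w b c := by
      ext x
      rw [Perm.mul_apply]
      by_cases e1 : x = w
      · subst e1
        rw [tri_fst hab hau, tri_fst hab hac, tri_other hbu hbc hab.symm]
      by_cases e2 : x = b
      · subst e2
        rw [tri_snd hbu hau, tri_snd hbc hac, tri_fst huc huw]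
      by_cases e3 : x = c
      · subst e3
        rw [tri_other hcw (Ne.symm hbc) (Ne.symm huc), tri_snd hcw huw, tri_trd]
      by_cases e4 : x = u
      · subst e4
        rw [tri_trd, tri_trd, tri_other e1 e2 e3]
      rw [tri_other e1 e2 e4, tri_other e4 e3 e1, tri_other e1 e2 e3]
    rw [← this]
    exact H.mul_mem hE hA
  by_cases hwb : w = b
  · subst hwb
    have hEi := H.inv_mem hE
    rw [tri_inv huc hcw huw] at hEi
    have : tri a w u * tri u w c = tri a w c := by
      ext x
      rw [Perm.mul_apply]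
      by_cases e1 : x = a
      · subst e1
        rw [tri_other hau hab hac, tri_fst hab hau, tri_fst hab hac]
      by_cases e2 : x = w
      · subst e2
        rw [tri_snd (Ne.symm hcw) huc, tri_snd (Ne.symm hcw) hac, tri_other (Ne.symm hac) hcw (Ne.symm huc)]
      by_cases e3 : x = c
      · subst e3
        rw [tri_trd, tri_trd, tri_trd]
      by_cases e4 : x = u
      · subst e4
        rw [tri_fst huw huc, tri_snd hbu hau, tri_other e1 e2 e3]
      rw [tri_other e4 e2 e3, tri_other e1 e2 e4, tri_other e1 e2 e3]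
    rw [← this]
    exact H.mul_mem hA hEi
  · have h5 : tri u c w * tri a b u * (tri u c w)⁻¹ ∈ H :=
      H.mul_mem (H.mul_mem hE hA) (H.inv_mem hE)
    rw [conj_tri, tri_other hau hac (Ne.symm hwa), tri_other hbu hbc (Ne.symm hwb),
      tri_fst huc huw] at h5
    exact h5

end Pool.Agent.Galois60
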