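import Pool.Agent.Galois60.Rel

set_option autoImplicit false
set_option linter.unusedSectionVars false

namespace Pool.Agent.Galois60

open Equiv Finset

variable {α : Type} [Fintype α] [DecidableEq α]

lemma good_of_card {G H : Subgroup (Perm α)} {r : ℕ}
    (hP : ∀ p q : Fin r → α, Function.Injective (Sum.elim p q) → Good G H (col p q))
    {ι : Type} [Fintype ι] (hι : Fintype.card ι = r) (p q : ι → α)
    (hpq : Function.Injective (Sum.elim p q)) : Good G H (col p q) := by
  let e := Fintype.equivFinOfCardEq hι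
  have h1 : Function.Injective (Sum.elim (p ∘ e.symm) (q ∘ e.symm)) := by
    have : Sum.elim (p ∘ e.symm) (q ∘ e.symm) = Sum.elim p q ∘ (Equiv.sumCongr e.symm e.symm) := by
      ext x; cases x <;> rfl
    rw [this]
    exact hpq.comp (Equiv.injective _)
  have h2 : col (p ∘ e.symm) (q ∘ e.symm) = col p q := by
    ext x
    by_cases hx : ∃ i, x = q i
    · obtain ⟨i, rfl⟩ := hx
      have : q i = (q ∘ e.symm) (e i) := by simp
      rw [col_q hpq, this, col_q h1]
      simp
    · push Not at hx
      rw [col_other hx, col_other]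
      intro i
      exact hx _
  rw [← h2]
  exact hP _ _ h1

/-- stabiliser elements act on each pair -/
lemma stab_pair {ι : Type} {p q : ι → α} (h : Function.Injective (Sum.elim p q)) {y : Perm α}
    (hy : ∀ x, (∃ i, x = p i ∨ x = q i) → col p q (y x) = col p q x) (i : ι) :
    (y (p i) = p i ∧ y (q i) = q i) ∨ (y (p i) = q i ∧ y (q i) = p i) := by
  have hpq : ∀ i j, p i ≠ q j := by
    intro i j hij
    have := @h (Sum.inl i) (Sum.inr j) (by simpa using hij)
    simp at this
  have hp : ∀ i j, p i = p j → i = j := by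
    intro i j hij
    have := @h (Sum.inl i) (Sum.inl j) (by simpa using hij)
    simpa using this
  have hq : ∀ i j, q i = q j → i = j := by
    intro i j hij
    have := @h (Sum.inr i) (Sum.inr j) (by simpa using hij)
    simpa using this
  have h1 : y (p i) = p i ∨ y (p i) = q i := by
    rcases (col_eq_iff h).1 (hy (p i) ⟨i, Or.inl rfl⟩) with h1 | ⟨j, ⟨h1, h2⟩ | ⟨h1, h2⟩⟩
    · exact Or.inl h1
    · exact absurd h2 (hpq i j)
    · rw [hp i j h2]; rw [hp i j h2] at h1; exact Or.inr h1
  have h2 : y (q i) = q i ∨ y (q i) = p i := by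
    rcases (col_eq_iff h).1 (hy (q i) ⟨i, Or.inr rfl⟩) with h1 | ⟨j, ⟨h1, h2⟩ | ⟨h1, h2⟩⟩
    · exact Or.inl h1
    · rw [hq i j h2]; rw [hq i j h2] at h1; exact Or.inr h1
    · exact absurd h2.symm (hpq j i)
  rcases h1 with h1 | h1 <;> rcases h2 with h2 | h2
  · exact Or.inl ⟨h1, h2⟩
  · exact absurd (y.injective (h1.trans h2.symm)) (hpq i i)
  · exact absurd (y.injective (h1.trans h2.symm)) (hpq i i)
  · exact Or.inr ⟨h1, h2⟩

lemma stab_other {ι : Type} {p q : ι → α} (h : Function.Injective (Sum.elim p q)) {x y : α}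
    (hx : ∀ i, x ≠ p i ∧ x ≠ q i) (hy : col p q y = col p q x) : y = x := by
  rcases (col_eq_iff h).1 hy with h1 | ⟨j, ⟨h1, h2⟩ | ⟨h1, h2⟩⟩
  · exact h1
  · exact absurd h2 (hx j).2
  · exact absurd h2 (hx j).1

/-- from a bad matching and a good extension, an element exchanging the two new points -/
lemma exists_swapper {G H : Subgroup (Perm α)} (hGH : G ≤ H) {ι : Type} [Fintype ι]
    {r : ℕ} (hP : ∀ p q : Fin r → α, Function.Injective (Sum.elim p q) → Good G H (col p q))
    (hι : Fintype.card ι + 1 = r) {p q : ι → α}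
    (hpq : Function.Injective (Sum.elim p q)) (hbad : ¬ Good G H (col p q))
    {a b : α} (hab : a ≠ b) (ha : ∀ i, a ≠ p i ∧ a ≠ q i) (hb : ∀ i, b ≠ p i ∧ b ≠ q i) :
    ∃ y ∈ H, y a = b ∧ y b = a ∧ ∀ x, x ≠ a → x ≠ b → col p q (y x) = col p q x := by
  have hpqn : ∀ i j, p i ≠ q j := by
    intro i j hij
    have := @hpq (Sum.inl i) (Sum.inr j) (by simpa using hij)
    simp at this
  have hp : ∀ i j, p i = p j → i = j := by
    intro i j hij
    have := @hpq (Sum.inl i) (Sum.inl j) (by simpa using hij)
    simpa using this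
  have hq : ∀ i j, q i = q j → i = j := by
    intro i j hij
    have := @hpq (Sum.inr i) (Sum.inr j) (by simpa using hij)
    simpa using this
  let p' : ι ⊕ Unit → α := Sum.elim p (fun _ => a)
  let q' : ι ⊕ Unit → α := Sum.elim q (fun _ => b)
  have hpq' : Function.Injective (Sum.elim p' q') := by
    rintro ((i | i) | (i | i)) ((j | j) | (j | j)) hij <;> simp only [Sum.elim_inl, Sum.elim_inr, p', q'] at hij
    · rw [hp i j hij]
    · exact absurd hij.symm (ha i).1
    · exact absurd hij (hpqn i j)
    · exact absurd hij.symm (hb i).1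
    · exact absurd hij (ha j).1
    · rfl
    · exact absurd hij (ha j).2
    · exact absurd hij hab
    · exact absurd hij.symm (hpqn j i)
    · exact absurd hij.symm (ha i).2
    · rw [hq i j hij]
    · exact absurd hij.symm (hb i).2
    · exact absurd hij (hb j).1
    · exact absurd hij hab.symm
    · exact absurd hij (hb j).2
    · rfl
  have hgood' : Good G H (col p' q') := good_of_card hP (by simpa using hι) p' q' hpq'
  have hcol1 : ∀ x, x ≠ b → col p' q' x = col p q x := by
    intro x hx
    by_cases h : ∃ i, x = q i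
    · obtain ⟨i, rfl⟩ := h
      rw [col_q hpq]
      have : q i = q' (Sum.inl i) := rfl
      rw [this, col_q hpq']
      rfl
    · push Not at h
      rw [col_other h, col_other]
      rintro (i | i)
      · exact h i
      · exact hx
  have hcol2 : col p' q' b = a := by
    have : b = q' (Sum.inr ()) := rfl
    rw [this, col_q hpq']
    rfl
  unfold Good at hbad
  push Not at hbad
  obtain ⟨h0, hh0, hh0'⟩ := hbad
  obtain ⟨y, hy, g, hg, hcy, hyg⟩ := good_decomp hGH hgood' hh0
  have hne : col p q ∘ y ≠ col p q := by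
    intro h
    apply hh0' g hg
    rw [hyg]
    ext x
    have := congrFun h (g x)
    simpa using this
  have hpair := stab_pair hpq' (y := y) (fun x _ => congrFun hcy x) (Sum.inr ())
  have hpair' : (y a = a ∧ y b = b) ∨ (y a = b ∧ y b = a) := hpair
  rcases hpair' with ⟨h1, h2⟩ | ⟨h1, h2⟩
  · exfalso
    apply hne
    ext x
    simp only [Function.comp_apply]
    by_cases hxb : x = b
    · subst hxb; rw [h2]
    · have h3 : y x ≠ b := fun h => hxb (y.injective (h.trans h2.symm))
      rw [← hcol1 x hxb, ← hcol1 (y x) h3]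
      exact congrFun hcy x
  · refine ⟨y, hy, h1, h2, ?_⟩
    intro x hxa hxb
    have h3 : y x ≠ b := fun h => hxa (y.injective (h.trans h1.symm))
    rw [← hcol1 x hxb, ← hcol1 (y x) h3]
    exact congrFun hcy x

/-- three-cycles on the complement of a bad matching -/
lemma tri_of_bad {G H : Subgroup (Perm α)} (hGH : G ≤ H) {ι : Type} [Fintype ι]
    {r : ℕ} (hP : ∀ p q : Fin r → α, Function.Injective (Sum.elim p q) → Good G H (col p q))
    (hι : Fintype.card ι + 1 = r) {p q : ι → α}
    (hpq : Function.Injective (Sum.elim p q)) (hbad : ¬ Good G H (col p q))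
    {a b c : α} (hab : a ≠ b) (hbc : b ≠ c) (hac : a ≠ c)
    (ha : ∀ i, a ≠ p i ∧ a ≠ q i) (hb : ∀ i, b ≠ p i ∧ b ≠ q i) (hc : ∀ i, c ≠ p i ∧ c ≠ q i) :
    tri a b c ∈ H := by
  obtain ⟨y, hy, hya, hyb, hyc⟩ := exists_swapper hGH hP hι hpq hbad hab ha hb
  obtain ⟨z, hz, hzb, hzc, hza⟩ := exists_swapper hGH hP hι hpq hbad hbc hb hc
  have yc : y c = c := stab_other hpq hc (hyc c hac.symm hbc.symm)
  have za : z a = a := stab_other hpq ha (hza a hab hac)
  have key : (y * z) * (y * z) = tri a c b := by
    ext x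
    simp only [Perm.mul_apply]
    by_cases h1 : x = a
    · subst h1; rw [za, hya, hzb, yc, tri_fst hac hab]
    by_cases h2 : x = b
    · subst h2; rw [hzb, yc, hzc, hyb, tri_trd]
    by_cases h3 : x = c
    · subst h3; rw [hzc, hyb, za, hya, tri_snd hbc.symm hab]
    rw [tri_other h1 h3 h2]
    by_cases h4 : ∃ i, x = p i ∨ x = q i
    · obtain ⟨i, hi⟩ := h4
      have hY := stab_pair hpq (y := y) (fun x hx => by
        obtain ⟨j, hj⟩ := hx
        apply hyc x
        · rintro rfl; rcases hj with hj | hj
          · exact (ha j).1 hj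
          · exact (ha j).2 hj
        · rintro rfl; rcases hj with hj | hj
          · exact (hb j).1 hj
          · exact (hb j).2 hj) i
      have hZ := stab_pair hpq (y := z) (fun x hx => by
        obtain ⟨j, hj⟩ := hx
        apply hza x
        · rintro rfl; rcases hj with hj | hj
          · exact (hb j).1 hj
          · exact (hb j).2 hj
        · rintro rfl; rcases hj with hj | hj
          · exact (hc j).1 hj
          · exact (hc j).2 hj) i
      rcases hY with ⟨e1, e2⟩ | ⟨e1, e2⟩ <;> rcases hZ with ⟨e3, e4⟩ | ⟨e3, e4⟩ <;>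
        rcases hi with rfl | rfl <;> simp only [e1, e2, e3, e4]
    · push Not at h4
      have hyx : y x = x := stab_other hpq h4 (hyc x h1 h2)
      have hzx : z x = x := stab_other hpq h4 (hza x h2 h3)
      rw [hzx, hyx, hzx, hyx]
  have h5 : tri a c b ∈ H := by
    rw [← key]
    exact H.mul_mem (H.mul_mem hy hz) (H.mul_mem hy hz)
  have := H.inv_mem h5
  rwa [tri_inv hac hbc.symm hab] at this

end Pool.Agent.Galois60
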